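import Pool.Agent.D0H51.BI.Gk

/-! # The balance inequality for functions with small low frequencies -/

set_option autoImplicit false

open MeasureTheory Set Filter Topology

namespace Pool.Agent.D0H51.BI

open Pool.Agent.N804 Pool.Agent.D0H51.AG

/-- lower bound of the kernel near the centre -/
lemma k1_low {x : ℝ} (h : |x| ≤ 1 / 2) : 1 / 2 ≤ k1 x := by
  unfold k1 ContDiffBump.normed
  have h1 : kbp x = 1 := kbp.one_of_mem_closedBall (by
    rw [mem_closedBall_zero_iff, Real.norm_eq_abs]
    exact h)
  rw [h1]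
  have hpos : 0 < ∫ x, kbp x := kbp.integral_pos
  have h2 : ∫ x, kbp x ≤ 2 := by
    have h3 : ∫ x, kbp x ≤ ∫ x, (Icc (-1 : ℝ) 1).indicator (fun _ => (1 : ℝ)) x := by
      refine integral_mono kbp.integrable ?_ fun x => ?_
      · exact (integrable_indicator_iff measurableSet_Icc).2
          (integrableOn_const (by rw [Real.volume_Icc]; exact ENNReal.ofReal_ne_top))
      · by_cases hx : x ∈ Icc (-1 : ℝ) 1
        · rw [indicator_of_mem hx]
          exact kbp.le_one
        · rw [indicator_of_notMem hx]
          by_contra hcon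
          push Not at hcon
          have h4 : x ∈ Function.support kbp := hcon.ne'
          rw [kbp.support_eq, mem_ball_zero_iff, Real.norm_eq_abs] at h4
          have h5 : |x| < 1 := h4
          rw [abs_lt] at h5
          exact hx ⟨h5.1.le, h5.2.le⟩
    rw [integral_indicator measurableSet_Icc, setIntegral_const, measureReal_def, Real.volume_Icc,
      smul_eq_mul, mul_one, ENNReal.toReal_ofReal (by norm_num)] at h3
    linarith
  rw [div_le_div_iff₀ (by norm_num) hpos]
  linarith

/-- **the balance inequality** -/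
theorem core {K A : ℝ} (hA : 0 ≤ A) (hK : 0 ≤ K) : ∃ C : ℝ, 0 < C ∧ ∀ D : ℝ → ℝ, GapU D K A →
    ∀ σ : ℝ, (σ = 1 ∨ σ = -1) → ∀ R : ℝ, 0 < R → ∀ x : ℝ,
      (max (σ * D x) 0) ^ 2 ≤ C * ((∫ a in (x - R)..(x + R), max (-(σ * D a)) 0) + 1 / R) := by
  obtain ⟨c1, hc1, hJ⟩ := J_small
  obtain ⟨M1, hM1, hM⟩ := k1_bd
  have hM0 : 0 < M1 := by linarith
  refine ⟨8 * M1 + 8 * ((A + K) * c1) + K ^ 2 * (2 * K + 1), by positivity,
    fun D G σ hσ R hR x => ?_⟩
  set C : ℝ := 8 * M1 + 8 * ((A + K) * c1) + K ^ 2 * (2 * K + 1) with hC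
  set I : ℝ := ∫ a in (x - R)..(x + R), max (-(σ * D a)) 0 with hI
  have hI0 : 0 ≤ I := intervalIntegral.integral_nonneg (by linarith) fun _ _ => le_max_right _ _
  have hsD : ∀ a, |σ * D a| = |D a| := by
    intro a
    rcases hσ with h | h <;> rw [h] <;> simp
  have hC8 : 0 ≤ 8 * ((A + K) * c1) := by positivity
  have hCK : 0 ≤ K ^ 2 * (2 * K + 1) := by positivity
  rcases le_or_gt (σ * D x) 0 with hneg | hpos
  · rw [max_eq_right hneg]
    have : 0 ≤ C * (I + 1 / R) := by positivity
    simpa using this
  have hMK : σ * D x ≤ K := (le_abs_self _).trans (by rw [hsD]; exact G.bd x)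
  rw [max_eq_left hpos.le]
  set M : ℝ := σ * D x with hMd
  rcases le_or_gt R (2 * K + 1) with hR1 | hR1
  · have h1 : M ^ 2 ≤ K ^ 2 := pow_le_pow_left₀ hpos.le hMK 2
    have h2 : K ^ 2 ≤ K ^ 2 * (2 * K + 1) * (1 / R) := by
      rw [mul_one_div, le_div_iff₀ hR]
      have : 0 ≤ K ^ 2 := by positivity
      gcongr
    have h3 : K ^ 2 * (2 * K + 1) * (1 / R) ≤ C * (I + 1 / R) := by
      have h4 : K ^ 2 * (2 * K + 1) * (1 / R) ≤ C * (1 / R) := by
        gcongr
        rw [hC]
        linarith
      have h5 : 0 ≤ C * I := by positivity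
      linarith
    linarith
  -- the main case
  have hR1' : 1 ≤ R := by linarith
  have hMR : M / 2 ≤ R / 4 := by linarith
  set W : Set ℝ := Ioc (x - R) (x + R) with hW
  have hmW : MeasurableSet W := measurableSet_Ioc
  obtain ⟨J, hmJ, hvJ, hJx, hJD⟩ : ∃ J : Set ℝ, MeasurableSet J ∧ volume.real J = M / 2 ∧
      (∀ a ∈ J, |a - x| ≤ M / 2) ∧ ∀ a ∈ J, M / 2 ≤ σ * D a := by
    rcases hσ with h | h
    · refine ⟨Icc x (x + M / 2), measurableSet_Icc, ?_, fun a ha => ?_, fun a ha => ?_⟩
      · rw [measureReal_def, Real.volume_Icc, ENNReal.toReal_ofReal (by linarith)]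
        ring
      · rw [abs_le]
        constructor <;> linarith [ha.1, ha.2]
      · have h1 := G.lip x a ha.1
        rw [h, one_mul] at hMd ⊢
        linarith [ha.2]
    · refine ⟨Icc (x - M / 2) x, measurableSet_Icc, ?_, fun a ha => ?_, fun a ha => ?_⟩
      · rw [measureReal_def, Real.volume_Icc, ENNReal.toReal_ofReal (by linarith)]
        ring
      · rw [abs_le]
        constructor <;> linarith [ha.1, ha.2]
      · have h1 := G.lip a x ha.2
        rw [h, neg_one_mul] at hMd ⊢
        linarith [ha.1]
  have hk : Integrable fun a => kR R (a - x) := (kR_integrable hR).comp_sub_right x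
  have hkD : Integrable fun a => σ * (kR R (a - x) * D a) :=
    (int_mulD G.meas G.bd hk).const_mul σ
  have hNm : Measurable fun a => max (-(σ * D a)) 0 := by
    have := G.meas
    fun_prop
  have hNb : ∀ a, ‖max (-(σ * D a)) 0‖ ≤ K := by
    intro a
    rw [Real.norm_eq_abs, abs_of_nonneg (le_max_right _ _)]
    refine max_le ?_ hK
    have := neg_abs_le (σ * D a)
    have h1 := G.bd a
    rw [← hsD] at h1
    linarith
  have hWfin : volume W ≠ ⊤ := by rw [hW, Real.volume_Ioc]; exact ENNReal.ofReal_ne_top
  have hNi : IntegrableOn (fun a => max (-(σ * D a)) 0) W := by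
    refine Integrable.mono' (g := fun _ => K) (integrableOn_const hWfin)
      hNm.aestronglyMeasurable (ae_of_all _ hNb)
  have hJW : J ⊆ W := fun a ha => by
    have := abs_le.1 (hJx a ha)
    exact ⟨by linarith [this.1], by linarith [this.2]⟩
  have hJfin : volume J ≠ ⊤ := measure_ne_top_of_subset hJW hWfin
  have i1 : Integrable (J.indicator fun _ : ℝ => M / (4 * R)) :=
    (integrable_indicator_iff hmJ).2 (integrableOn_const hJfin)
  have i2 : Integrable (W.indicator fun a => M1 / R * max (-(σ * D a)) 0) :=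
    (integrable_indicator_iff hmW).2 (hNi.const_mul _)
  have hmain : ∫ a, (J.indicator (fun _ : ℝ => M / (4 * R)) a -
      W.indicator (fun a => M1 / R * max (-(σ * D a)) 0) a) ≤
      ∫ a, σ * (kR R (a - x) * D a) := by
    refine integral_mono (i1.sub i2) hkD fun a => ?_
    have hk0 := kR_nonneg hR (a - x)
    by_cases haW : a ∈ W
    · rw [indicator_of_mem haW]
      have hk1 : kR R (a - x) ≤ M1 / R := by
        unfold kR
        have := (le_abs_self _).trans (hM ((a - x) / R))
        rw [one_div, inv_mul_eq_div]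
        gcongr
      have hN0 : 0 ≤ max (-(σ * D a)) 0 := le_max_right _ _
      by_cases haJ : a ∈ J
      · rw [indicator_of_mem haJ]
        have h1 : 1 / (2 * R) ≤ kR R (a - x) := by
          unfold kR
          have h2 : |(a - x) / R| ≤ 1 / 2 := by
            rw [abs_div, abs_of_pos hR, div_le_iff₀ hR]
            have := hJx a haJ
            linarith
          have h3 := k1_low h2
          calc 1 / (2 * R) = (1 / R) * (1 / 2) := by field_simp
            _ ≤ _ := by gcongr
        have h4 := hJD a haJ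
        show M / (4 * R) - M1 / R * max (-(σ * D a)) 0 ≤ σ * (kR R (a - x) * D a)
        have h5 : 0 ≤ M1 / R * max (-(σ * D a)) 0 := by positivity
        have h6 : M / (4 * R) ≤ kR R (a - x) * (σ * D a) := by
          calc M / (4 * R) = (1 / (2 * R)) * (M / 2) := by
                field_simp
                norm_num
            _ ≤ kR R (a - x) * (σ * D a) := by gcongr
        have e : σ * (kR R (a - x) * D a) = kR R (a - x) * (σ * D a) := by ring
        rw [e]
        linarith
      · rw [indicator_of_notMem haJ]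
        show 0 - M1 / R * max (-(σ * D a)) 0 ≤ σ * (kR R (a - x) * D a)
        have e : σ * (kR R (a - x) * D a) = kR R (a - x) * (σ * D a) := by ring
        rw [e]
        have h1 : -(σ * D a) ≤ max (-(σ * D a)) 0 := le_max_left _ _
        have h2 : kR R (a - x) * (-(σ * D a)) ≤ kR R (a - x) * max (-(σ * D a)) 0 := by gcongr
        have h3 : kR R (a - x) * max (-(σ * D a)) 0 ≤ M1 / R * max (-(σ * D a)) 0 := by gcongr
        linarith
    · rw [indicator_of_notMem haW, indicator_of_notMem fun h => haW (hJW h)]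
      have h1 : kR R (a - x) = 0 := by
        refine kR_zero hR ?_
        by_contra hcon
        push Not at hcon
        rw [abs_lt] at hcon
        exact haW ⟨by linarith, by linarith⟩
      show (0 : ℝ) - 0 ≤ σ * (kR R (a - x) * D a)
      rw [h1]
      simp
  rw [integral_sub i1 i2, integral_indicator hmJ, integral_indicator hmW, setIntegral_const, hvJ,
    smul_eq_mul, integral_const_mul, integral_const_mul] at hmain
  have e1 : ∫ a in W, max (-(σ * D a)) 0 = I := by
    rw [hI, intervalIntegral.integral_of_le (by linarith)]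
  rw [e1] at hmain
  have h7 : σ * ∫ a, kR R (a - x) * D a ≤ (A + K) * c1 / R ^ 2 := by
    refine le_trans (le_abs_self _) ?_
    rw [abs_mul]
    have := hJ D K A hA G R hR1' x
    unfold JJ at this
    rcases hσ with h | h <;> rw [h] <;> simpa using this
  have h8 : M / 2 * (M / (4 * R)) - M1 / R * I ≤ (A + K) * c1 / R ^ 2 := hmain.trans h7
  have h9 : M ^ 2 ≤ 8 * M1 * I + 8 * ((A + K) * c1) * (1 / R) := by
    have e2 : M / 2 * (M / (4 * R)) = M ^ 2 / (8 * R) := by
      field_simp
      norm_num
    rw [e2] at h8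
    have h10 : M ^ 2 / (8 * R) ≤ M1 / R * I + (A + K) * c1 / R ^ 2 := by linarith
    rw [div_le_iff₀ (by positivity)] at h10
    refine h10.trans (le_of_eq ?_)
    field_simp
  refine h9.trans ?_
  have hR' : 0 < 1 / R := by positivity
  have h11 : 8 * M1 * I ≤ C * I := by
    gcongr
    rw [hC]
    linarith
  have h12 : 8 * ((A + K) * c1) * (1 / R) ≤ C * (1 / R) := by
    gcongr
    rw [hC]
    linarith
  linarith

end Pool.Agent.D0H51.BI
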