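import Pool.Agent.D0H51.AG.LimU

/-! # Smoothed values for a general kernel -/

set_option autoImplicit false

open MeasureTheory Set Filter Topology

namespace Pool.Agent.D0H51.BI

open Pool.Agent.N804 Pool.Agent.D0H51.AG

/-- the kernels -/
structure KK (k : ℝ → ℝ) : Prop where
  sc : SC k
  ev : ∀ x, k (-x) = k x
  z : ∀ x, 1 ≤ |x| → k x = 0
  l1 : ∫ x, |k x| ≤ 1

variable {k : ℝ → ℝ}

/-- second differences -/
lemma kd2 (Hk : KK k) : ∃ M : ℝ, 0 ≤ M ∧ ∀ x u, |2 * k x - k (x - u) - k (x + u)| ≤ M * u ^ 2 := by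
  obtain ⟨M, hM⟩ := Hk.sc.deriv.deriv.cs.exists_bound_of_continuous Hk.sc.deriv.deriv.cont
  have hM0 : 0 ≤ M := (norm_nonneg _).trans (hM 0)
  have hlip : ∀ x y, |deriv k y - deriv k x| ≤ M * |y - x| := by
    intro x y
    have := Convex.norm_image_sub_le_of_norm_deriv_le (f := deriv k) (s := univ) (C := M)
      (fun z _ => Hk.sc.deriv.diff z) (fun z _ => hM z) convex_univ (mem_univ x) (mem_univ y)
    simpa using this
  refine ⟨2 * M, by positivity, fun x u => ?_⟩
  set φ : ℝ → ℝ := fun v => k (x - v) + k (x + v) with hφ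
  have hd : ∀ v, HasDerivAt φ (-deriv k (x - v) + deriv k (x + v)) v := by
    intro v
    have h1 : HasDerivAt (fun v => k (x - v)) (-deriv k (x - v)) v := by
      have h2 : HasDerivAt (fun v => x - v) (-1) v := by
        have := (hasDerivAt_id v).const_sub x
        simpa using this
      have := (Hk.sc.diff (x - v)).hasDerivAt.comp v h2
      rw [mul_neg_one] at this
      exact this
    have h3 : HasDerivAt (fun v => k (x + v)) (deriv k (x + v)) v := by
      have h2 : HasDerivAt (fun v => x + v) 1 v := by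
        have := (hasDerivAt_id v).const_add x
        simpa using this
      have := (Hk.sc.diff (x + v)).hasDerivAt.comp v h2
      rw [mul_one] at this
      exact this
    exact h1.add h3
  have hb : ∀ v ∈ Icc (-|u|) |u|, ‖deriv φ v‖ ≤ 2 * M * |u| := by
    intro v hv
    rw [(hd v).deriv, Real.norm_eq_abs]
    have h1 := hlip (x - v) (x + v)
    have h2 : |v| ≤ |u| := abs_le.2 hv
    have h3 : |x + v - (x - v)| = 2 * |v| := by
      rw [show x + v - (x - v) = 2 * v by ring, abs_mul, abs_two]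
    rw [h3] at h1
    rw [show -deriv k (x - v) + deriv k (x + v) = deriv k (x + v) - deriv k (x - v) by ring]
    nlinarith
  have h4 := Convex.norm_image_sub_le_of_norm_deriv_le (f := φ) (C := 2 * M * |u|)
    (fun z _ => (hd z).differentiableAt) hb (convex_Icc _ _)
    (show (0 : ℝ) ∈ Icc (-|u|) |u| by constructor <;> linarith [abs_nonneg u])
    (show u ∈ Icc (-|u|) |u| by exact abs_le.1 le_rfl)
  have e1 : 2 * k x - k (x - u) - k (x + u) = -(φ u - φ 0) := by
    rw [hφ]
    simp only [sub_zero, add_zero]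
    ring
  rw [e1, abs_neg]
  rw [Real.norm_eq_abs, Real.norm_eq_abs, sub_zero] at h4
  refine h4.trans (le_of_eq ?_)
  rw [mul_assoc, ← pow_two, sq_abs]

/-- the dilated kernel -/
noncomputable def kG (k : ℝ → ℝ) (R x : ℝ) : ℝ := (1 / R) * k (x / R)

lemma kG_cont (Hk : KK k) (R : ℝ) : Continuous (kG k R) := by
  unfold kG
  have := Hk.sc.cont
  fun_prop

lemma kG_even (Hk : KK k) (R x : ℝ) : kG k R (-x) = kG k R x := by
  unfold kG
  rw [neg_div, Hk.ev]

lemma kG_zero (Hk : KK k) {R : ℝ} (hR : 0 < R) {x : ℝ} (h : R ≤ |x|) : kG k R x = 0 := by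
  unfold kG
  rw [Hk.z, mul_zero]
  rw [abs_div, abs_of_pos hR, le_div_iff₀ hR]
  linarith

lemma kG_integrable (Hk : KK k) {R : ℝ} (hR : 0 < R) : Integrable (kG k R) := by
  refine Continuous.integrable_of_hasCompactSupport (kG_cont Hk R) ?_
  refine HasCompactSupport.intro (isCompact_Icc (a := -R) (b := R)) fun x hx => kG_zero Hk hR ?_
  by_contra hcon
  push Not at hcon
  exact hx (abs_le.1 hcon.le)

/-- the transform of the kernel -/
lemma kG_CT {R : ℝ} (hR : 0 < R) (α : ℝ) :
    ∫ x, kG k R x * Real.cos (2 * Real.pi * α * x) = CT k (R * α) := by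
  unfold kG CT
  have h := Measure.integral_comp_mul_left
    (fun x : ℝ => (1 / R) * k (x / R) * Real.cos (2 * Real.pi * α * x)) R
  rw [abs_of_pos (inv_pos.2 hR), smul_eq_mul] at h
  have e : ∫ x, (1 / R) * k (x / R) * Real.cos (2 * Real.pi * α * x) =
      R * ∫ x, (1 / R) * k (R * x / R) * Real.cos (2 * Real.pi * α * (R * x)) := by
    rw [h, mul_inv_cancel_left₀ hR.ne']
  rw [e, ← integral_const_mul]
  congr 1
  funext x
  rw [show R * x / R = x by field_simp, show 2 * Real.pi * α * (R * x) =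
    2 * Real.pi * x * (R * α) by ring]
  field_simp

lemma kG_ST (Hk : KK k) {R : ℝ} (α : ℝ) : ∫ x, kG k R x * Real.sin (2 * Real.pi * α * x) = 0 := by
  have h := integral_neg_eq_self (fun x : ℝ => kG k R x * Real.sin (2 * Real.pi * α * x)) volume
  have e : ∀ x : ℝ, kG k R (-x) * Real.sin (2 * Real.pi * α * (-x)) =
      -(kG k R x * Real.sin (2 * Real.pi * α * x)) := by
    intro x
    rw [kG_even Hk, mul_neg, Real.sin_neg]
    ring
  simp only [e, integral_neg] at h
  linarith

/-- smoothed values -/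
noncomputable def JG (k D : ℝ → ℝ) (R s : ℝ) : ℝ := ∫ x, kG k R (x - s) * D x

lemma kG_diff2 (Hk : KK k) : ∃ M : ℝ, 0 ≤ M ∧ ∀ R : ℝ, 1 ≤ R → ∀ D : ℝ → ℝ, ∀ K : ℝ, (∀ x, |D x| ≤ K) →
    Measurable D → ∀ s t : ℝ, |2 * JG k D R s - JG k D R (s + t) - JG k D R (s - t)| ≤
      K * M * (1 + |t|) * t ^ 2 / R ^ 2 := by
  obtain ⟨M, hM0, hM⟩ := kd2 Hk
  refine ⟨2 * M, by positivity, fun R hR D K hK hD s t => ?_⟩
  have hR0 : 0 < R := by linarith
  have hK0 : 0 ≤ K := (abs_nonneg _).trans (hK 0)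
  have i0 : ∀ u : ℝ, Integrable fun x => kG k R (x - u) * D x := fun u =>
    int_mulD hD hK ((kG_integrable Hk hR0).comp_sub_right u)
  have e1 : 2 * JG k D R s - JG k D R (s + t) - JG k D R (s - t) =
      ∫ x, (2 * kG k R (x - s) - kG k R (x - s - t) - kG k R (x - s + t)) * D x := by
    unfold JG
    have j2 : Integrable fun x => 2 * (kG k R (x - s) * D x) - kG k R (x - (s + t)) * D x :=
      ((i0 s).const_mul 2).sub (i0 (s + t))
    rw [← integral_const_mul, ← integral_sub ((i0 s).const_mul 2) (i0 (s + t)),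
      ← integral_sub j2 (i0 (s - t))]
    congr 1
    funext x
    rw [show x - (s + t) = x - s - t by ring, show x - (s - t) = x - s + t by ring]
    ring
  rw [e1]
  have h2 := int_supp_bd (f := fun x => (2 * kG k R (x - s) - kG k R (x - s - t) -
    kG k R (x - s + t)) * D x) (a := s - (R + |t|)) (b := s + (R + |t|))
    (c := (1 / R) * (M * (t / R) ^ 2) * K) (by linarith [abs_nonneg t]) (fun x hx => ?_)
    (fun x => ?_)
  · refine h2.trans ?_
    have e3 : (1 / R) * (M * (t / R) ^ 2) * K * (s + (R + |t|) - (s - (R + |t|))) =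
        K * (2 * M) * ((R + |t|) / R) * t ^ 2 / R ^ 2 := by
      field_simp
      ring
    rw [e3]
    have h4 : (R + |t|) / R ≤ 1 + |t| := by
      rw [div_le_iff₀ hR0]
      nlinarith [abs_nonneg t]
    gcongr
  · have h3 : R + |t| < |x - s| := by
      by_contra hcon
      push Not at hcon
      rw [abs_le] at hcon
      exact hx ⟨by linarith, by linarith⟩
    have ht := abs_nonneg t
    have z1 : kG k R (x - s) = 0 := kG_zero Hk hR0 (by linarith)
    have z2 : kG k R (x - s - t) = 0 := kG_zero Hk hR0 (by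
      have := abs_sub_abs_le_abs_sub (x - s) t
      linarith)
    have z3 : kG k R (x - s + t) = 0 := kG_zero Hk hR0 (by
      have := abs_sub_abs_le_abs_sub (x - s) (-t)
      rw [abs_neg, sub_neg_eq_add] at this
      linarith)
    rw [z1, z2, z3]
    ring
  · show |(2 * kG k R (x - s) - kG k R (x - s - t) - kG k R (x - s + t)) * D x| ≤ _
    rw [abs_mul]
    refine mul_le_mul ?_ (hK x) (abs_nonneg _) (by positivity)
    unfold kG
    have h5 := hM ((x - s) / R) (t / R)
    have e4 : 2 * (1 / R * k ((x - s) / R)) - 1 / R * k ((x - s - t) / R) -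
        1 / R * k ((x - s + t) / R) =
        (1 / R) * (2 * k ((x - s) / R) - k ((x - s) / R - t / R) - k ((x - s) / R + t / R)) := by
      rw [sub_div (x - s) t, add_div (x - s) t]
      ring
    rw [e4, abs_mul, abs_of_pos (by positivity : 0 < 1 / R)]
    gcongr

/-- convolution of the kernel with a transform -/
lemma convg1 (Hk : KK k) {b : ℝ → ℝ} (H : SC b) {R : ℝ} (hR : 0 < R) (y : ℝ) :
    ∫ t, CT b t * kG k R (y - t) = CT (fun α => b α * CT k (R * α)) y := by
  have hb := H.cont
  have hbi : Integrable b := hb.integrable_of_hasCompactSupport H.cs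
  have hk : Integrable fun t => kG k R (y - t) := (kG_integrable Hk hR).comp_sub_left y
  have hprod : Integrable (fun p : ℝ × ℝ => (kG k R (y - p.1) * b p.2) *
      Real.cos (2 * Real.pi * p.2 * p.1)) (volume.prod volume) := by
    have h1 : Integrable (fun p : ℝ × ℝ => kG k R (y - p.1) * b p.2) (volume.prod volume) :=
      hk.mul_prod hbi
    refine Integrable.mono h1 ?_ (ae_of_all _ fun p => ?_)
    · refine h1.aestronglyMeasurable.mul ?_
      exact (by fun_prop : Continuous fun p : ℝ × ℝ =>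
        Real.cos (2 * Real.pi * p.2 * p.1)).aestronglyMeasurable
    · rw [norm_mul]
      exact mul_le_of_le_one_right (norm_nonneg _) (Real.abs_cos_le_one _)
  have e1 : ∫ t, CT b t * kG k R (y - t) =
      ∫ t, ∫ α, (kG k R (y - t) * b α) * Real.cos (2 * Real.pi * α * t) := by
    congr 1
    funext t
    unfold CT
    rw [← integral_mul_const]
    congr 1
    funext α
    ring
  rw [e1, integral_integral_swap hprod]
  unfold CT
  congr 1
  funext α
  have e2 : ∫ t, kG k R (y - t) * b α * Real.cos (2 * Real.pi * α * t) =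
      b α * ∫ u, kG k R u * Real.cos (2 * Real.pi * α * (y - u)) := by
    rw [← integral_const_mul]
    have h := integral_sub_left_eq_self
      (fun t : ℝ => kG k R (y - t) * b α * Real.cos (2 * Real.pi * α * t)) volume y
    rw [← h]
    congr 1
    funext u
    rw [sub_sub_cancel]
    ring
  rw [e2]
  have ic : Integrable fun u => kG k R u * Real.cos (2 * Real.pi * α * u) := by
    refine Integrable.mono (kG_integrable Hk hR) ?_ (ae_of_all _ fun p => ?_)
    · have := kG_cont Hk R
      exact (by fun_prop : Continuous fun u =>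
        kG k R u * Real.cos (2 * Real.pi * α * u)).aestronglyMeasurable
    · rw [norm_mul]
      exact mul_le_of_le_one_right (norm_nonneg _) (Real.abs_cos_le_one _)
  have is : Integrable fun u => kG k R u * Real.sin (2 * Real.pi * α * u) := by
    refine Integrable.mono (kG_integrable Hk hR) ?_ (ae_of_all _ fun p => ?_)
    · have := kG_cont Hk R
      exact (by fun_prop : Continuous fun u =>
        kG k R u * Real.sin (2 * Real.pi * α * u)).aestronglyMeasurable
    · rw [norm_mul]
      exact mul_le_of_le_one_right (norm_nonneg _) (Real.abs_sin_le_one _)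
  have e3 : ∫ u, kG k R u * Real.cos (2 * Real.pi * α * (y - u)) =
      Real.cos (2 * Real.pi * α * y) * ∫ u, kG k R u * Real.cos (2 * Real.pi * α * u) := by
    have h1 : ∀ u, kG k R u * Real.cos (2 * Real.pi * α * (y - u)) =
        Real.cos (2 * Real.pi * α * y) * (kG k R u * Real.cos (2 * Real.pi * α * u)) +
        Real.sin (2 * Real.pi * α * y) * (kG k R u * Real.sin (2 * Real.pi * α * u)) := by
      intro u
      rw [mul_sub, Real.cos_sub]
      ring
    simp_rw [h1]
    rw [integral_add (ic.const_mul _) (is.const_mul _), integral_const_mul, integral_const_mul,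
      kG_ST Hk, mul_zero, add_zero]
  rw [e3, kG_CT hR]
  unfold CT
  ring

/-- convolution with the function -/
lemma convg2 (Hk : KK k) {D : ℝ → ℝ} {K : ℝ} (hD : Measurable D) (hK : ∀ x, |D x| ≤ K) {b : ℝ → ℝ} (H : SC b)
    {R : ℝ} (hR : 0 < R) (s : ℝ) :
    Integrable (fun t => CT b t * JG k D R (s + t)) ∧
    ∫ t, CT b t * JG k D R (s + t) = ∫ x, CT (fun α => b α * CT k (R * α)) (x - s) * D x := by
  have hK0 : 0 ≤ K := (abs_nonneg _).trans (hK 0)
  have hg := CT_integrable H
  have hk := (kG_integrable Hk hR).comp_sub_right s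
  have h1 : Integrable (fun p : ℝ × ℝ => CT b p.2 * kG k R (p.1 - p.2 - s)) (volume.prod volume) := by
    have := hg.convolution_integrand (ContinuousLinearMap.mul ℝ ℝ) hk (μ := volume)
    exact this
  have h2 : Integrable (fun p : ℝ × ℝ => CT b p.2 * kG k R (p.1 - p.2 - s) * D p.1)
      (volume.prod volume) := by
    refine Integrable.mono' (h1.norm.mul_const K) (h1.aestronglyMeasurable.mul
      (hD.comp measurable_fst).aestronglyMeasurable) (ae_of_all _ fun p => ?_)
    rw [norm_mul]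
    exact mul_le_mul_of_nonneg_left (hK _) (norm_nonneg _)
  have e0 : ∀ t, ∫ x, CT b t * kG k R (x - t - s) * D x = CT b t * JG k D R (s + t) := by
    intro t
    unfold JG
    rw [← integral_const_mul]
    congr 1
    funext x
    rw [show x - (s + t) = x - t - s by ring]
    ring
  constructor
  · have := h2.integral_prod_right
    refine this.congr (ae_of_all _ fun t => ?_)
    exact e0 t
  · have e1 : ∫ t, CT b t * JG k D R (s + t) = ∫ t, ∫ x, CT b t * kG k R (x - t - s) * D x := by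
      congr 1
      funext t
      exact (e0 t).symm
    rw [e1, ← integral_integral_swap h2]
    congr 1
    funext x
    rw [← convg1 Hk H hR, ← integral_mul_const]
    congr 1
    funext t
    rw [show x - s - t = x - t - s by ring]

lemma CTk_le (Hk : KK k) (ξ : ℝ) : |CT k ξ| ≤ 1 := by
  unfold CT
  calc |∫ α, k α * Real.cos (2 * Real.pi * α * ξ)| ≤
        ∫ α, |k α * Real.cos (2 * Real.pi * α * ξ)| := abs_integral_le_integral_abs
    _ ≤ ∫ α, |k α| := by
        refine integral_mono (Hk.sc.int_cos ξ).abs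
          (Hk.sc.cont.integrable_of_hasCompactSupport Hk.sc.cs).abs fun α => ?_
        show |k α * Real.cos (2 * Real.pi * α * ξ)| ≤ |k α|
        rw [abs_mul]
        exact mul_le_of_le_one_right (abs_nonneg _) (Real.abs_cos_le_one _)
    _ ≤ 1 := Hk.l1

/-- the dyadic pieces -/
noncomputable def bg (k : ℝ → ℝ) (R : ℝ) (n : ℕ) (α : ℝ) : ℝ := bn n α * CT k (R * α)

/-- the dyadic pieces -/
noncomputable def dg (k : ℝ → ℝ) (R : ℝ) (n : ℕ) (α : ℝ) : ℝ := dn n α * CT k (R * α)

lemma CTRg_cd (Hk : KK k) (R : ℝ) : ContDiff ℝ (⊤ : ℕ∞) fun α : ℝ => CT k (R * α) :=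
  (CT_smooth Hk.sc).comp (contDiff_const.mul contDiff_id)

lemma bg_SC (Hk : KK k) (R : ℝ) (n : ℕ) : SC (bg k R n) := SC.mulc (bn_SC n) (CTRg_cd Hk R)

lemma dg_SC (Hk : KK k) (R : ℝ) (n : ℕ) : SC (dg k R n) := SC.mulc (dn_SC n) (CTRg_cd Hk R)

lemma bg_step (Hk : KK k) (R : ℝ) (n : ℕ) (x : ℝ) : CT (bg k R n) x = CT (dg k R n) x + CT (bg k R (n + 1)) x := by
  rw [← CT_add (dg_SC Hk R n) (bg_SC Hk R (n + 1))]
  congr 1
  funext α
  unfold bg dg dn
  ring

/-- the bound for one piece -/
lemma dg_bd (Hk : KK k) {c4 : ℝ} (hc4 : 0 ≤ c4) (h4 : ∀ ξ : ℝ, |ξ| ^ 4 * |CT k ξ| ≤ c4) {R : ℝ} (hR : 1 ≤ R)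
    (n : ℕ) (α : ℝ) : |dg k R n α| ≤ (8 * 2 ^ n * min 1 (4096 * c4 * (4 ^ n / R ^ 2) ^ 2)) * |α| := by
  have hR0 : 0 < R := by linarith
  have h2n : (0 : ℝ) < 2 ^ n := by positivity
  have hmin : 0 ≤ min 1 (4096 * c4 * (4 ^ n / R ^ 2) ^ 2) := le_min zero_le_one (by positivity)
  unfold dg
  rcases le_or_gt (|α|) (1 / 8 / 2 ^ n) with h | h
  · have h1 : dn n α = 0 := by
      have h2 : |2 ^ n * α| ≤ 1 / 8 := by
        rw [abs_mul, abs_of_pos h2n]
        rw [le_div_iff₀ h2n] at h
        linarith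
      have h3 := cz_near h2
      unfold dn bn
      rw [show (2 : ℝ) ^ (n + 1) * α = 2 * (2 ^ n * α) by ring]
      exact h3
    rw [h1, zero_mul, abs_zero]
    positivity
  · have hα : 0 < |α| := lt_trans (by positivity) h
    have h1 : |dn n α| ≤ 1 := by
      have a1 := bn_abs n α
      have a2 := bn_abs (n + 1) α
      unfold dn
      rw [abs_le]
      constructor <;> linarith [a1.1, a1.2, a2.1, a2.2]
    have h8 : 1 ≤ 8 * 2 ^ n * |α| := by
      rw [div_div, div_lt_iff₀ (by positivity)] at h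
      linarith
    have h2 : |CT k (R * α)| ≤ min 1 (4096 * c4 * (4 ^ n / R ^ 2) ^ 2) := by
      refine le_min (CTk_le Hk _) ?_
      have h3 := h4 (R * α)
      have h5 : R / (8 * 2 ^ n) ≤ |R * α| := by
        rw [abs_mul, abs_of_pos hR0, div_le_iff₀ (by positivity)]
        nlinarith
      have h6 : (R / (8 * 2 ^ n)) ^ 4 * |CT k (R * α)| ≤ c4 := by
        refine le_trans ?_ h3
        gcongr
      have h7 : 0 < (R / (8 * 2 ^ n)) ^ 4 := by positivity
      have h9 : |CT k (R * α)| ≤ c4 / (R / (8 * 2 ^ n)) ^ 4 := by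
        rw [le_div_iff₀ h7]
        linarith
      refine h9.trans (le_of_eq ?_)
      have e4 : (4 : ℝ) ^ n = 2 ^ n * 2 ^ n := by
        rw [← mul_pow]
        norm_num
      rw [e4]
      field_simp
      norm_num
    rw [abs_mul]
    calc |dn n α| * |CT k (R * α)| ≤ 1 * min 1 (4096 * c4 * (4 ^ n / R ^ 2) ^ 2) := by
          gcongr
      _ ≤ (8 * 2 ^ n * |α|) * min 1 (4096 * c4 * (4 ^ n / R ^ 2) ^ 2) := by gcongr
      _ = _ := by ring

/-- **the low frequencies** -/
theorem lowg_bd (Hk : KK k) : ∃ c : ℝ, 0 < c ∧ ∀ (D : ℝ → ℝ) (K A : ℝ), 0 ≤ A → GapU D K A → ∀ R : ℝ, 1 ≤ R →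
    ∀ s : ℝ, |∫ x, CT (bg k R 0) (x - s) * D x| ≤ A * c / R ^ 2 := by
  obtain ⟨c4, hc4, h4⟩ := CT_dec' Hk.sc 4
  refine ⟨max 1 (4096 * c4) * (10 / 3), by positivity, fun D K A hA G R hR s => ?_⟩
  have hR0 : 0 < R := by linarith
  set r : ℕ → ℝ := fun n => 4 ^ n / R ^ 2 with hr
  have hr0 : ∀ n, 0 < r n := fun n => by rw [hr]; positivity
  set f : ℕ → ℝ := fun n => r n / (1 + r n) with hf
  have hint : ∀ b, SC b → Integrable fun x => CT b (x - s) * D x := fun b hb =>
    int_mulD G.meas G.bd ((CT_integrable hb).comp_sub_right s)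
  have hpiece : ∀ n, |∫ x, CT (dg k R n) (x - s) * D x| ≤
      A * (max 1 (4096 * c4) * (10 / 3)) / R ^ 2 * (f (n + 1) - f n) := by
    intro n
    have h2n : (0 : ℝ) < 2 ^ n := by positivity
    have h1 := G.small (dg k R n) (dg_SC Hk R n) (1 / 2 / 2 ^ n) (by positivity) (by
      rw [div_le_iff₀ h2n]
      have : (1 : ℝ) ≤ 2 ^ n := one_le_pow₀ (by norm_num)
      linarith) (fun α hα => by
        unfold dg dn
        have h2 : (1 : ℝ) / 2 / 2 ^ (n + 1) < |α| := by
          refine lt_of_le_of_lt ?_ hα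
          have : (2 : ℝ) ^ n ≤ 2 ^ (n + 1) := pow_le_pow_right₀ (by norm_num) (by omega)
          gcongr
        rw [bn_zero n hα, bn_zero (n + 1) h2]
        ring) _ (fun α => dg_bd Hk hc4 h4 hR n α) s
    refine h1.trans ?_
    have h3 := min_aux (c := 4096 * c4) (hr0 n)
    have e1 : f (n + 1) - f n = 4 * r n / (1 + 4 * r n) - r n / (1 + r n) := by
      have : r (n + 1) = 4 * r n := by rw [hr]; simp only [pow_succ]; ring
      rw [hf]
      simp only [this]
    rw [e1]
    have e4 : (4 : ℝ) ^ n = 2 ^ n * 2 ^ n := by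
      rw [← mul_pow]
      norm_num
    have e2 : A * (8 * 2 ^ n * min 1 (4096 * c4 * (4 ^ n / R ^ 2) ^ 2)) * (1 / 2 / 2 ^ n) ^ 3 =
        A / R ^ 2 * (min 1 (4096 * c4 * (r n) ^ 2) / r n) := by
      rw [hr]
      simp only
      rw [e4]
      field_simp
      ring
    rw [e2]
    calc A / R ^ 2 * (min 1 (4096 * c4 * (r n) ^ 2) / r n) ≤ A / R ^ 2 *
          (max 1 (4096 * c4) * (10 / 3) * (4 * r n / (1 + 4 * r n) - r n / (1 + r n))) := by
          gcongr
      _ = _ := by ring
  have hsum : ∀ N : ℕ, |∫ x, CT (bg k R 0) (x - s) * D x| ≤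
      A * (max 1 (4096 * c4) * (10 / 3)) / R ^ 2 * (f N - f 0) +
        |∫ x, CT (bg k R N) (x - s) * D x| := by
    intro N
    induction N with
    | zero => simp
    | succ N ih =>
      have e : ∫ x, CT (bg k R N) (x - s) * D x = (∫ x, CT (dg k R N) (x - s) * D x) +
          ∫ x, CT (bg k R (N + 1)) (x - s) * D x := by
        rw [← integral_add (hint _ (dg_SC Hk R N)) (hint _ (bg_SC Hk R (N + 1)))]
        congr 1
        funext x
        rw [bg_step Hk]
        ring
      rw [e] at ih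
      have h1 := abs_add_le (∫ x, CT (dg k R N) (x - s) * D x)
        (∫ x, CT (bg k R (N + 1)) (x - s) * D x)
      have h2 := hpiece N
      have e3 : A * (max 1 (4096 * c4) * (10 / 3)) / R ^ 2 * (f (N + 1) - f 0) =
          A * (max 1 (4096 * c4) * (10 / 3)) / R ^ 2 * (f N - f 0) +
          A * (max 1 (4096 * c4) * (10 / 3)) / R ^ 2 * (f (N + 1) - f N) := by ring
      rw [e3]
      linarith
  have hlast : ∀ N : ℕ, |∫ x, CT (bg k R 0) (x - s) * D x| ≤
      A * (max 1 (4096 * c4) * (10 / 3)) / R ^ 2 + A * (2 * |s|) * (1 / 2 / 2 ^ N) ^ 3 := by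
    intro N
    refine (hsum N).trans (add_le_add ?_ ?_)
    · have h1 : f N ≤ 1 := by
        have := hr0 N
        rw [hf]
        simp only
        rw [div_le_one (by positivity)]
        linarith
      have h2 : 0 ≤ f 0 := by
        have := hr0 0
        rw [hf]
        simp only
        positivity
      have h3 : 0 ≤ A * (max 1 (4096 * c4) * (10 / 3)) / R ^ 2 := by positivity
      calc A * (max 1 (4096 * c4) * (10 / 3)) / R ^ 2 * (f N - f 0) ≤
            A * (max 1 (4096 * c4) * (10 / 3)) / R ^ 2 * 1 := by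
            gcongr
            linarith
        _ = _ := mul_one _
    · have h2n : (0 : ℝ) < 2 ^ N := by positivity
      refine G.small0 (bg k R N) (bg_SC Hk R N) (1 / 2 / 2 ^ N) (by positivity) (by
        rw [div_le_iff₀ h2n]
        have : (1 : ℝ) ≤ 2 ^ N := one_le_pow₀ (by norm_num)
        linarith) (fun α hα => by
          unfold bg
          rw [bn_zero N hα, zero_mul]) (fun α => ?_) s
      unfold bg
      rw [abs_mul]
      have a1 := bn_abs N α
      rw [abs_of_nonneg a1.1]
      exact mul_le_one₀ a1.2 (abs_nonneg _) (CTk_le Hk _)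
  have hlim : Tendsto (fun N : ℕ => A * (max 1 (4096 * c4) * (10 / 3)) / R ^ 2 +
      A * (2 * |s|) * (1 / 2 / 2 ^ N) ^ 3) atTop
      (𝓝 (A * (max 1 (4096 * c4) * (10 / 3)) / R ^ 2 + A * (2 * |s|) * (0 : ℝ) ^ 3)) := by
    refine tendsto_const_nhds.add (Tendsto.const_mul _ (Tendsto.pow ?_ 3))
    have h1 : Tendsto (fun N : ℕ => (1 / 2 : ℝ) * (1 / 2) ^ N) atTop (𝓝 ((1 / 2) * 0)) :=
      (tendsto_pow_atTop_nhds_zero_of_lt_one (by norm_num) (by norm_num)).const_mul _
    rw [mul_zero] at h1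
    refine h1.congr fun N => ?_
    rw [one_div_pow]
    ring
  have := ge_of_tendsto' hlim hlast
  simpa using this

/-- **smoothed values are small** -/
theorem Jg_small (Hk : KK k) : ∃ c : ℝ, 0 < c ∧ ∀ (D : ℝ → ℝ) (K A : ℝ), 0 ≤ A → GapU D K A → ∀ R : ℝ, 1 ≤ R →
    ∀ s : ℝ, |JG k D R s| ≤ (A + K) * c / R ^ 2 := by
  obtain ⟨c1, hc1, hlow⟩ := lowg_bd Hk
  obtain ⟨M, hM0, hM⟩ := kG_diff2 Hk
  set I : ℝ := ∫ t, (|t| ^ 2 * |CT (bn 0) t| + |t| ^ 3 * |CT (bn 0) t|) with hI
  have hI0 : 0 ≤ I := integral_nonneg fun t => by positivity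
  refine ⟨c1 + M * I, by positivity, fun D K A hA G R hR s => ?_⟩
  have hR0 : 0 < R := by linarith
  have hK0 : 0 ≤ K := (abs_nonneg _).trans (G.bd 0)
  have hmass : ∫ t, CT (bn 0) t = 1 := by
    rw [CT_mass (bn_SC 0) (bn_even 0)]
    unfold bn
    rw [mul_zero]
    exact bb_one (by simp)
  obtain ⟨i1, e1⟩ := convg2 Hk G.meas G.bd (bn_SC 0) hR0 s
  have hlow' := hlow D K A hA G R hR s
  have e2 : ∫ t, CT (bn 0) t * JG k D R (s - t) = ∫ t, CT (bn 0) t * JG k D R (s + t) := by
    rw [← integral_neg_eq_self (fun t => CT (bn 0) t * JG k D R (s + t))]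
    congr 1
    funext t
    show CT (bn 0) t * JG k D R (s - t) = CT (bn 0) (-t) * JG k D R (s + -t)
    rw [CT_evenf, sub_eq_add_neg]
  have i2 : Integrable fun t => CT (bn 0) t * JG k D R (s - t) := by
    have := i1.comp_neg
    refine this.congr (ae_of_all _ fun t => ?_)
    show CT (bn 0) (-t) * JG k D R (s + -t) = CT (bn 0) t * JG k D R (s - t)
    rw [CT_evenf, sub_eq_add_neg]
  have i3 : Integrable fun t => CT (bn 0) t * (2 * JG k D R s) := (CT_integrable (bn_SC 0)).mul_const _
  have i4 : Integrable fun t => CT (bn 0) t * (2 * JG k D R s) - CT (bn 0) t * JG k D R (s + t) :=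
    i3.sub i1
  have e3 : 2 * (JG k D R s - ∫ t, CT (bn 0) t * JG k D R (s + t)) =
      ∫ t, CT (bn 0) t * (2 * JG k D R s - JG k D R (s + t) - JG k D R (s - t)) := by
    have : ∫ t, CT (bn 0) t * (2 * JG k D R s - JG k D R (s + t) - JG k D R (s - t)) =
        ∫ t, (CT (bn 0) t * (2 * JG k D R s) - CT (bn 0) t * JG k D R (s + t) -
          CT (bn 0) t * JG k D R (s - t)) := by
      congr 1
      funext t
      ring
    rw [this, integral_sub i4 i2, integral_sub i3 i1, e2, integral_mul_const, hmass]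
    ring
  have h5 : |∫ t, CT (bn 0) t * (2 * JG k D R s - JG k D R (s + t) - JG k D R (s - t))| ≤
      K * M / R ^ 2 * I := by
    calc |∫ t, CT (bn 0) t * (2 * JG k D R s - JG k D R (s + t) - JG k D R (s - t))| ≤
          ∫ t, |CT (bn 0) t * (2 * JG k D R s - JG k D R (s + t) - JG k D R (s - t))| :=
          abs_integral_le_integral_abs
      _ ≤ ∫ t, K * M / R ^ 2 * (|t| ^ 2 * |CT (bn 0) t| + |t| ^ 3 * |CT (bn 0) t|) := by
          refine integral_mono_of_nonneg (ae_of_all _ fun t => abs_nonneg _)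
            (((CT_intp (bn_SC 0) 2).add (CT_intp (bn_SC 0) 3)).const_mul _)
            (ae_of_all _ fun t => ?_)
          show |CT (bn 0) t * (2 * JG k D R s - JG k D R (s + t) - JG k D R (s - t))| ≤
            K * M / R ^ 2 * (|t| ^ 2 * |CT (bn 0) t| + |t| ^ 3 * |CT (bn 0) t|)
          rw [abs_mul]
          have h6 := hM R hR D K G.bd G.meas s t
          calc |CT (bn 0) t| * |2 * JG k D R s - JG k D R (s + t) - JG k D R (s - t)| ≤
                |CT (bn 0) t| * (K * M * (1 + |t|) * t ^ 2 / R ^ 2) := by gcongr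
            _ = _ := by rw [← sq_abs t]; ring
      _ = _ := by rw [integral_const_mul]
  rw [← e3, abs_mul, abs_two] at h5
  have h6 : |JG k D R s| ≤ |JG k D R s - ∫ t, CT (bn 0) t * JG k D R (s + t)| +
      |∫ t, CT (bn 0) t * JG k D R (s + t)| := by
    have := abs_add_le (JG k D R s - ∫ t, CT (bn 0) t * JG k D R (s + t))
      (∫ t, CT (bn 0) t * JG k D R (s + t))
    rwa [sub_add_cancel] at this
  have h7 : |∫ t, CT (bn 0) t * JG k D R (s + t)| ≤ A * c1 / R ^ 2 := by
    rw [e1]
    exact hlow'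
  have h8 : |JG k D R s - ∫ t, CT (bn 0) t * JG k D R (s + t)| ≤ K * M / R ^ 2 * I := by
    have : 0 ≤ |JG k D R s - ∫ t, CT (bn 0) t * JG k D R (s + t)| := abs_nonneg _
    linarith
  have h9 : A * c1 / R ^ 2 + K * M / R ^ 2 * I ≤ (A + K) * (c1 + M * I) / R ^ 2 := by
    have e4 : A * c1 / R ^ 2 + K * M / R ^ 2 * I = (A * c1 + K * (M * I)) / R ^ 2 := by ring
    rw [e4]
    gcongr
    have : 0 ≤ A * (M * I) := by positivity
    have : 0 ≤ K * c1 := by positivity
    nlinarith
  linarith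


end Pool.Agent.D0H51.BI
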