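import Pool.Agent.D0H51.BI.Core

/-! # Passage to the limit -/

set_option autoImplicit false

open MeasureTheory Set Filter Topology

namespace Pool.Agent.D0H51.BI

open Pool.Agent.N804 Pool.Agent.D0H51.AG
open H370 (Zf mult)

/-- limits of the errors, with all bounds -/
theorem extractW : ∃ K A : ℝ, 0 < K ∧ 0 < A ∧ ∀ T : ℕ → ℝ, Tendsto T atTop atTop →
    ∃ ψ : ℕ → ℕ, StrictMono ψ ∧ ∃ D : ℝ → ℝ, GapU D K A ∧
      (∀ᵐ a : ℝ, 0 < a → Tendsto (fun n => SS (T (ψ n)) a) atTop (𝓝 (2 * D a))) ∧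
      ∀ z : ℝ, 0 < z → ∃ B : ℝ, ∀ᶠ n in atTop, ∀ a : ℝ, 0 < a → a ≤ z →
        |SS (T (ψ n)) a| ≤ B := by
  obtain ⟨B, A, hB, hA, hext⟩ := extractU
  obtain ⟨B', hB', hloc⟩ := loc_lim
  obtain ⟨K, hK, hmean⟩ := mean_bd hB hA hB'
  refine ⟨K + 1, A, by linarith, hA, fun T hT => ?_⟩
  obtain ⟨ψ, hψ, Φ, μ, ν, e, H, h1, h2, h3, h4⟩ := hext T hT
  have hT' : Tendsto (fun k => T (ψ k)) atTop atTop := hT.comp hψ.tendsto_atTop
  have hg := GP_ae H.mono h1
  have hm := hmean Φ μ ν e H (hloc _ hT' Φ H.mono h1)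
  have G := gapU_of_LU hB hA H hK hm
  have c2 : Tendsto (fun k => MF (T (ψ k))) atTop (𝓝 μ) := by
    have := (mf_lim.comp hT').add h2
    rw [zero_add] at this
    refine this.congr fun k => ?_
    simp only [Function.comp]
    ring
  refine ⟨ψ, hψ, od (Gd Φ μ), G, ?_, fun z hz => ?_⟩
  · filter_upwards [hg] with a ga ha
    have c1 := CF_conv hT' hg ha ga
    have c3 := (((c1.const_mul 2).add c2).sub_const 1).sub_const (2 * PP a)
    rw [od_pos ha]
    unfold Gd SS
    refine (c3.congr fun n => by ring).trans (le_of_eq ?_)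
    congr 1
    ring
  · obtain ⟨w, hw, gw⟩ := ae_Ioo hg (show z < z + 1 by linarith)
    have hw0 : 0 < w := hz.trans hw.1
    have hc := CF_conv hT' hg hw0 gw
    have hbd : ∀ᶠ k in atTop, CF (T (ψ k)) w ≤ Φ w + 1 :=
      (hc.eventually (gt_mem_nhds (show Φ w < Φ w + 1 by linarith))).mono fun k hk => hk.le
    have hbm : ∀ᶠ k in atTop, |MF (T (ψ k)) - μ| < 1 := by
      have := (Metric.tendsto_nhds.1 c2) 1 one_pos
      exact this.mono fun k hk => by rwa [Real.dist_eq] at hk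
    refine ⟨2 * |Φ w + 1| + |μ| + 2 + 2 * z, ?_⟩
    filter_upwards [hT'.eventually_ge_atTop 2, hbd, hbm] with k hk h2 h5 a ha haz
    have k3 := CF_nonneg (T := T (ψ k)) (by linarith) a
    have k4 := CF_mono (T := T (ψ k)) (by linarith) (show a ≤ w by linarith [hw.1])
    have k5 := PP_nonneg ha.le
    have k6 := PP_le ha.le
    have k7 := le_abs_self (Φ w + 1)
    have k8 := abs_lt.1 h5
    have k9 := abs_le.1 (le_refl |μ|)
    unfold SS
    rw [abs_le]
    constructor <;> linarith [k8.1, k8.2, k9.1, k9.2]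

/-- convergence of integrals of continuous functions of the errors -/
lemma int_conv {T : ℕ → ℝ} {D : ℝ → ℝ}
    (hc : ∀ᵐ a : ℝ, 0 < a → Tendsto (fun n => SS (T n) a) atTop (𝓝 (2 * D a)))
    (hb : ∀ z : ℝ, 0 < z → ∃ B : ℝ, ∀ᶠ n in atTop, ∀ a : ℝ, 0 < a → a ≤ z → |SS (T n) a| ≤ B)
    {F : ℝ → ℝ → ℝ} (hF : Continuous fun p : ℝ × ℝ => F p.1 p.2) {M : ℝ}
    (hM : ∀ a s, |F a s| ≤ M * |s|) (hM0 : 0 ≤ M)
    {u v : ℝ} (hu : 0 ≤ u) (huv : u < v) :
    Tendsto (fun n => ∫ a in u..v, F a (SS (T n) a)) atTop (𝓝 (∫ a in u..v, F a (2 * D a))) := by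
  obtain ⟨B, hB⟩ := hb v (by linarith)
  refine intervalIntegral.tendsto_integral_filter_of_dominated_convergence
    (fun _ => M * B) ?_ ?_ intervalIntegrable_const ?_
  · refine Eventually.of_forall fun n => ?_
    have h1 : Measurable fun a => F a (SS (T n) a) :=
      hF.measurable.comp (measurable_id.prodMk (SS_meas (T n)))
    exact h1.aestronglyMeasurable
  · filter_upwards [hB] with n hn
    refine ae_of_all _ fun a ha => ?_
    rw [uIoc_of_le huv.le] at ha
    rw [Real.norm_eq_abs]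
    refine (hM _ _).trans ?_
    have := hn a (lt_of_le_of_lt hu ha.1) ha.2
    gcongr
  · filter_upwards [hc] with a ga ha
    rw [uIoc_of_le huv.le] at ha
    have h1 := ga (lt_of_le_of_lt hu ha.1)
    have h2 : Continuous fun s => F a s := hF.comp (by fun_prop : Continuous fun s : ℝ => (a, s))
    exact (h2.tendsto _).comp h1

/-- **smooth averages** -/
theorem smooth_T {k : ℝ → ℝ} (Hk : KK k) : ∃ C : ℝ, 0 < C ∧ ∀ R x : ℝ, 1 ≤ R → R ≤ x →
    ∀ᶠ T in atTop, |∫ a in (x - R)..(x + R), kG k R (a - x) * SS T a| ≤ C / R ^ 2 := by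
  obtain ⟨K, A, hK, hA, hext⟩ := extractW
  obtain ⟨c, hc, hJ⟩ := Jg_small Hk
  refine ⟨2 * ((A + K) * c) + 1, by positivity, fun R x hR hx => ev_of_seq fun T hT => ?_⟩
  have hR0 : 0 < R := by linarith
  obtain ⟨ψ, hψ, D, G, h1, h2⟩ := hext T hT
  refine ⟨ψ, ?_⟩
  obtain ⟨M, hM⟩ := Hk.sc.cs.exists_bound_of_continuous Hk.sc.cont
  have hM0 : 0 ≤ M := (norm_nonneg _).trans (hM 0)
  have h3 := int_conv h1 h2 (F := fun a s => kG k R (a - x) * s) (M := (1 / R) * M) (by
      have := kG_cont Hk R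
      fun_prop) (fun a s => by
      rw [abs_mul]
      unfold kG
      rw [abs_mul, abs_of_pos (by positivity : 0 < 1 / R)]
      have := hM ((a - x) / R)
      rw [Real.norm_eq_abs] at this
      gcongr) (by positivity) (u := x - R) (v := x + R) (by linarith) (by linarith)
  have e0 : ∫ a in Ioc (x - R) (x + R), kG k R (a - x) * D a = JG k D R x := by
    unfold JG
    refine setIntegral_eq_integral_of_forall_compl_eq_zero fun a ha => ?_
    have : kG k R (a - x) = 0 := by
      refine kG_zero Hk hR0 ?_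
      by_contra hcon
      push Not at hcon
      rw [abs_lt] at hcon
      exact ha ⟨by linarith, by linarith⟩
    rw [this]
    ring
  have e1 : ∫ a in (x - R)..(x + R), kG k R (a - x) * (2 * D a) = 2 * JG k D R x := by
    rw [intervalIntegral.integral_of_le (by linarith), ← e0, ← integral_const_mul]
    congr 1
    funext a
    ring
  rw [e1] at h3
  have h4 := hJ D K A hA.le G R hR x
  have h5 : |2 * JG k D R x| < (2 * ((A + K) * c) + 1) / R ^ 2 := by
    rw [abs_mul, abs_two]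
    have hR2 : 0 < R ^ 2 := by positivity
    rw [le_div_iff₀ hR2] at h4
    rw [lt_div_iff₀ hR2]
    linarith
  exact (h3.abs.eventually_lt_const h5).mono fun n hn => hn.le

/-- **the balance inequality** -/
theorem balance_T : ∃ C : ℝ, 0 < C ∧ ∀ σ : ℝ, (σ = 1 ∨ σ = -1) → ∀ R x : ℝ, 1 ≤ R → R ≤ x →
    ∀ᶠ T in atTop, (max (σ * SS T x) 0) ^ 2 ≤
      C * ((∫ a in (x - R)..(x + R), max (-(σ * SS T a)) 0) + 1 / R) := by
  obtain ⟨K, A, hK, hA, hext⟩ := extractW
  obtain ⟨C1, hC1, hcore⟩ := core hA.le hK.le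
  refine ⟨32 * C1 + 10, by positivity, fun σ hσ R x hR hx => ev_of_seq fun T hT => ?_⟩
  have hR0 : 0 < R := by linarith
  obtain ⟨ψ, hψ, D, G, h1, h2⟩ := hext T hT
  have hT' : Tendsto (fun k => T (ψ k)) atTop atTop := hT.comp hψ.tendsto_atTop
  refine ⟨ψ, ?_⟩
  have hσ1 : |σ| = 1 := by rcases hσ with h | h <;> rw [h] <;> simp
  have h3 := int_conv h1 h2 (F := fun _ s => max (-(σ * s)) 0) (M := 1) (by fun_prop)
    (fun a s => by
      rw [abs_of_nonneg (le_max_right _ _), one_mul]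
      refine max_le ?_ (abs_nonneg _)
      have := neg_abs_le (σ * s)
      rw [abs_mul, hσ1, one_mul] at this
      linarith) zero_le_one (u := x - R) (v := x + R) (by linarith) (by linarith)
  set I : ℝ := ∫ a in (x - R)..(x + R), max (-(σ * D a)) 0 with hI
  have e1 : ∫ a in (x - R)..(x + R), max (-(σ * (2 * D a))) 0 = 2 * I := by
    rw [hI, ← intervalIntegral.integral_const_mul]
    congr 1
    funext a
    have h4 := mul_max_of_nonneg (-(σ * D a)) 0 (show (0 : ℝ) ≤ 2 by norm_num)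
    rw [mul_zero] at h4
    rw [h4]
    congr 1
    ring
  rw [e1] at h3
  have hNm : Measurable fun a => max (-(σ * D a)) 0 := by
    have := G.meas
    fun_prop
  have hNb : ∀ a, ‖max (-(σ * D a)) 0‖ ≤ K := by
    intro a
    rw [Real.norm_eq_abs, abs_of_nonneg (le_max_right _ _)]
    refine max_le ?_ hK.le
    have := neg_abs_le (σ * D a)
    rw [abs_mul, hσ1, one_mul] at this
    have h1 := G.bd a
    linarith
  have hii : ∀ u v : ℝ, IntervalIntegrable (fun a => max (-(σ * D a)) 0) volume u v := fun u v =>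
    (intervalIntegrable_const (c := K)).mono_fun hNm.aestronglyMeasurable
      (ae_of_all _ fun a => by
        show ‖max (-(σ * D a)) 0‖ ≤ ‖K‖
        rw [Real.norm_of_nonneg hK.le]
        exact hNb a)
  set δ : ℝ := 1 / (2 * R) with hδ
  have hδ0 : 0 < δ := by positivity
  have hδR : δ ≤ R / 2 := by
    rw [hδ, div_le_div_iff₀ (by positivity) (by norm_num)]
    nlinarith
  have hδ1 : δ ≤ 1 / 2 := by
    rw [hδ, div_le_div_iff₀ (by positivity) (by norm_num)]
    linarith
  have hδ2 : δ ^ 2 ≤ 1 / (4 * R) := by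
    rw [hδ, div_pow, one_pow, div_le_div_iff₀ (by positivity) (by positivity)]
    nlinarith
  -- a good point next to `x`
  obtain ⟨y, hyx, hy0, hyc, hyT⟩ : ∃ y : ℝ, |y - x| < δ ∧ 0 < y ∧
      Tendsto (fun n => SS (T (ψ n)) y) atTop (𝓝 (2 * D y)) ∧
      ∀ n, 1 < T (ψ n) → σ * SS (T (ψ n)) x ≤ σ * SS (T (ψ n)) y + 2 * |y - x| := by
    rcases hσ with h | h
    · obtain ⟨y, hy, gy⟩ := ae_Ioo h1 (show x < x + δ by linarith)
      have hy0 : 0 < y := by linarith [hy.1]
      refine ⟨y, ?_, hy0, gy hy0, fun n hn => ?_⟩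
      · rw [abs_of_pos (by linarith [hy.1])]
        linarith [hy.2]
      · have k1 := CF_mono hn hy.1.le
        have k2 := PP_lip hy.1.le
        rw [abs_of_pos (by linarith [hy.1] : 0 < y - x), h]
        unfold SS
        linarith
    · obtain ⟨y, hy, gy⟩ := ae_Ioo h1 (show x - δ < x by linarith)
      have hy0 : 0 < y := by linarith [hy.1]
      refine ⟨y, ?_, hy0, gy hy0, fun n hn => ?_⟩
      · rw [abs_of_neg (by linarith [hy.2])]
        linarith [hy.1]
      · have k1 := CF_mono hn hy.2.le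
        have k2 := PP_lip hy.2.le
        rw [abs_of_neg (by linarith [hy.2] : y - x < 0), h]
        unfold SS
        linarith
  set R' : ℝ := R - |y - x| with hR'
  have hR'0 : R / 2 ≤ R' := by rw [hR']; linarith
  have hR'p : 0 < R' := by linarith
  have hcy := hcore D G σ hσ R' hR'p y
  have hyx1 := neg_abs_le (y - x)
  have hyx2 := le_abs_self (y - x)
  have hsub : ∫ a in (y - R')..(y + R'), max (-(σ * D a)) 0 ≤ I := by
    rw [hI]
    refine intervalIntegral.integral_mono_interval (by linarith) (by linarith) (by linarith)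
      (ae_of_all _ fun a => le_max_right _ _) (hii _ _)
  have hinv : 1 / R' ≤ 2 * (1 / R) := by
    rw [mul_one_div, div_le_div_iff₀ hR'p hR0]
    linarith
  have hP : (max (σ * D y) 0) ^ 2 ≤ C1 * (I + 2 * (1 / R)) := by
    refine hcy.trans ?_
    gcongr
  have hI0 : 0 ≤ I := intervalIntegral.integral_nonneg (by linarith) fun _ _ => le_max_right _ _
  have hyc' : Tendsto (fun n => σ * SS (T (ψ n)) y) atTop (𝓝 (σ * (2 * D y))) := hyc.const_mul σ
  filter_upwards [hT'.eventually_ge_atTop 2, hyc'.eventually (gt_mem_nhds (show σ * (2 * D y) <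
    σ * (2 * D y) + δ by linarith)), h3.eventually (lt_mem_nhds (show 2 * I - 1 / (2 * R) < 2 * I by
    have : 0 < 1 / (2 * R) := by positivity
    linarith))] with n hn k1 k2
  have k3 := hyT n (by linarith)
  set P : ℝ := max (σ * D y) 0 with hPd
  have hP0 : 0 ≤ P := le_max_right _ _
  have hP1 : σ * D y ≤ P := le_max_left _ _
  have k4 : max (σ * SS (T (ψ n)) x) 0 ≤ 2 * P + 3 * δ := by
    refine max_le ?_ (by positivity)
    linarith
  have k5 : (max (σ * SS (T (ψ n)) x) 0) ^ 2 ≤ (2 * P + 3 * δ) ^ 2 :=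
    pow_le_pow_left₀ (le_max_right _ _) k4 2
  have k6 : (2 * P + 3 * δ) ^ 2 ≤ 8 * P ^ 2 + 18 * δ ^ 2 := by nlinarith [sq_nonneg (2 * P - 3 * δ)]
  have hRi : 0 < 1 / R := by positivity
  have e4 : 1 / (4 * R) = 1 / R / 4 := by field_simp
  have e2 : 1 / (2 * R) = 1 / R / 2 := by field_simp
  rw [e4] at hδ2
  rw [e2] at k2
  have k7 : (32 * C1 + 10) * (2 * I + 1 / R / 2) ≤ (32 * C1 + 10) *
      ((∫ a in (x - R)..(x + R), max (-(σ * SS (T (ψ n)) a)) 0) + 1 / R) := by
    refine mul_le_mul_of_nonneg_left ?_ (by positivity)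
    linarith
  have k8 : 0 ≤ C1 * I := by positivity
  nlinarith

end Pool.Agent.D0H51.BI
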